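import Pool.Agent.H92.EQ.TP
import Pool.Agent.H38.EQ.Pol

/-!
# PDS: descent
-/

set_option autoImplicit false

namespace Pool.Agent.H77.EQ

open scoped BigOperators ComplexConjugate ContDiff ComplexOrder
open MeasureTheory Filter Topology
open Pool.Agent.H92.EQ Pool.Agent.H38.EQ

noncomputable section

section basics

variable {N : ℕ}

theorem nrm_pos {z : Fin N → ℂ} (hz : z ≠ 0) : 0 < nrm z := Real.sqrt_pos.mpr (nsq_pos hz)

theorem nrm_smul (l : ℂ) (z : Fin N → ℂ) : nrm (l • z) = ‖l‖ * nrm z := by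
  unfold nrm
  rw [nsq_smul, Real.sqrt_mul (by positivity), Real.sqrt_sq (norm_nonneg l)]

theorem nrm_cont : Continuous (nrm : (Fin N → ℂ) → ℝ) := by
  unfold nrm nsq
  fun_prop

theorem ne_of_nrm {z : Fin N → ℂ} (h : nrm z = 1) : z ≠ 0 := by
  rintro rfl
  unfold nrm nsq at h
  simp at h

theorem sph_cpt : IsCompact {z : Fin N → ℂ | nrm z = 1} := by
  refine Metric.isCompact_of_isClosed_isBounded (isClosed_eq nrm_cont continuous_const) ?_
  refine (Metric.isBounded_closedBall (x := (0 : Fin N → ℂ)) (r := 1)).subset ?_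
  intro z hz
  rw [mem_closedBall_zero_iff, pi_norm_le_iff_of_nonneg zero_le_one]
  intro i
  have h1 : ‖z i‖ ^ 2 ≤ nsq z :=
    Finset.single_le_sum (f := fun i => ‖z i‖ ^ 2) (fun i _ => by positivity)
      (Finset.mem_univ i)
  have h2 : nsq z = 1 := by
    have h3 : nrm z = 1 := hz
    unfold nrm at h3
    rwa [Real.sqrt_eq_one] at h3
  rw [h2] at h1
  nlinarith [norm_nonneg (z i)]

/-- normalization -/
theorem exists_unit {z : Fin N → ℂ} (hz : z ≠ 0) : ∃ (l : ℂ) (w : Fin N → ℂ), l ≠ 0 ∧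
    nrm w = 1 ∧ z = l • w := by
  have hp := nrm_pos hz
  have hc : ((nrm z : ℝ) : ℂ) ≠ 0 := by exact_mod_cast hp.ne'
  refine ⟨((nrm z : ℝ) : ℂ), ((nrm z : ℝ) : ℂ)⁻¹ • z, hc, ?_, ?_⟩
  · rw [nrm_smul, norm_inv, Complex.norm_of_nonneg hp.le, inv_mul_cancel₀ hp.ne']
  · rw [smul_smul, mul_inv_cancel₀ hc, one_smul]

theorem nv_smul {h : MvPolynomial (Fin N) ℂ} {m : ℕ} (hh : h.IsHomogeneous m) {l : ℂ}
    (hl : l ≠ 0) (z : Fin N → ℂ) : nv h m (l • z) = nv h m z := by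
  unfold nv
  have h1 : ‖l‖ ^ m ≠ 0 := pow_ne_zero _ (norm_ne_zero_iff.mpr hl)
  rw [pol_hom h hh, nrm_smul, norm_mul, norm_pow, mul_pow, mul_div_mul_left _ _ h1]

theorem phi_smul {s : ℕ} {h : Fin s → MvPolynomial (Fin N) ℂ} {e : Fin s → ℕ}
    (hh : ∀ i, (h i).IsHomogeneous (e i)) {l : ℂ} (hl : l ≠ 0) (z : Fin N → ℂ) :
    phi h e (l • z) = phi h e z :=
  Finset.sum_congr rfl fun i _ => nv_smul (hh i) hl z

theorem nv_nonneg (h : MvPolynomial (Fin N) ℂ) (m : ℕ) (z : Fin N → ℂ) : 0 ≤ nv h m z :=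
  div_nonneg (norm_nonneg _) (pow_nonneg (Real.sqrt_nonneg _) _)

theorem nv_unit (h : MvPolynomial (Fin N) ℂ) (m : ℕ) {z : Fin N → ℂ} (hz : nrm z = 1) :
    nv h m z = ‖MvPolynomial.eval z h‖ := by
  unfold nv
  rw [hz, one_pow, div_one]

theorem ev_bind (Φ : Fin N → MvPolynomial (Fin N) ℂ) (p : MvPolynomial (Fin N) ℂ)
    (z : Fin N → ℂ) : MvPolynomial.eval z (MvPolynomial.bind₁ Φ p) =
      MvPolynomial.eval (ev Φ z) p := by
  have := MvPolynomial.eval₂Hom_bind₁ (RingHom.id ℂ) z Φ p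
  exact this

theorem iter_succ (F : Fin N → MvPolynomial (Fin N) ℂ) (n : ℕ) (z : Fin N → ℂ) :
    ev (iter F (n + 1)) z = ev F (ev (iter F n) z) := by
  funext i
  exact ev_bind (iter F n) (F i) z

theorem iter_zero (F : Fin N → MvPolynomial (Fin N) ℂ) (z : Fin N → ℂ) :
    ev (iter F 0) z = z := by
  funext i
  show MvPolynomial.eval z (MvPolynomial.X i) = z i
  rw [MvPolynomial.eval_X]

theorem iter_succ' (F : Fin N → MvPolynomial (Fin N) ℂ) (n : ℕ) (z : Fin N → ℂ) :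
    ev (iter F (n + 1)) z = ev (iter F n) (ev F z) := by
  induction n with
  | zero => rw [iter_succ, iter_zero, iter_zero]
  | succ n ih => rw [iter_succ, ih, iter_succ]

theorem sum_biUnion_le' {α β : Type} [DecidableEq β] (s : Finset α) (t : α → Finset β)
    (f : β → ℝ) (hf : ∀ b, 0 ≤ f b) : ∑ q ∈ s.biUnion t, f q ≤ ∑ i ∈ s, ∑ q ∈ t i, f q := by
  classical
  induction s using Finset.induction_on with
  | empty => simp
  | insert a s ha ih =>
    rw [Finset.biUnion_insert, Finset.sum_insert ha]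
    have h1 := Finset.sum_union_inter (s₁ := t a) (s₂ := s.biUnion t) (f := f)
    have h2 : 0 ≤ ∑ q ∈ t a ∩ s.biUnion t, f q := Finset.sum_nonneg fun b _ => hf b
    linarith

theorem sum_image_le' {α β : Type} [DecidableEq β] (s : Finset α) (g : α → β)
    (f : β → ℝ) (hf : ∀ b, 0 ≤ f b) : ∑ q ∈ s.image g, f q ≤ ∑ i ∈ s, f (g i) := by
  classical
  induction s using Finset.induction_on with
  | empty => simp
  | insert a s ha ih =>
    rw [Finset.image_insert, Finset.sum_insert ha]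
    by_cases h : g a ∈ s.image g
    · rw [Finset.insert_eq_of_mem h]
      linarith [hf (g a)]
    · rw [Finset.sum_insert h]
      linarith

/-- bounds on the sphere for the members of an ideal -/
theorem span_bound (S : Finset (MvPolynomial (Fin N) ℂ)) (p : MvPolynomial (Fin N) ℂ)
    (hp : p ∈ Ideal.span (S : Set (MvPolynomial (Fin N) ℂ))) :
    ∃ B : ℝ, 0 ≤ B ∧ ∀ x : Fin N → ℂ, nrm x = 1 →
      ‖MvPolynomial.eval x p‖ ≤ B * ∑ q ∈ S, ‖MvPolynomial.eval x q‖ := by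
  refine Submodule.span_induction (p := fun p _ => ∃ B : ℝ, 0 ≤ B ∧ ∀ x : Fin N → ℂ,
    nrm x = 1 → ‖MvPolynomial.eval x p‖ ≤ B * ∑ q ∈ S, ‖MvPolynomial.eval x q‖)
    ?_ ?_ ?_ ?_ hp
  · intro q hq
    refine ⟨1, zero_le_one, fun x _ => ?_⟩
    rw [one_mul]
    exact Finset.single_le_sum (f := fun q => ‖MvPolynomial.eval x q‖)
      (fun _ _ => norm_nonneg _) hq
  · exact ⟨0, le_rfl, fun x _ => by rw [map_zero, norm_zero, zero_mul]⟩
  · rintro q q' - - ⟨B, hB, h1⟩ ⟨B', hB', h2⟩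
    refine ⟨B + B', by positivity, fun x hx => ?_⟩
    rw [map_add, add_mul]
    exact (norm_add_le _ _).trans (add_le_add (h1 x hx) (h2 x hx))
  · rintro a q - ⟨B, hB, h1⟩
    obtain ⟨A, hA⟩ := (sph_cpt (N := N)).exists_bound_of_continuousOn
      (f := fun x => MvPolynomial.eval x a) (MvPolynomial.continuous_eval a).continuousOn
    refine ⟨|A| * B, by positivity, fun x hx => ?_⟩
    rw [smul_eq_mul, map_mul, norm_mul, mul_assoc]
    exact mul_le_mul ((hA x hx).trans (le_abs_self A)) (h1 x hx) (norm_nonneg _)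
      (abs_nonneg A)

/-- a large coordinate -/
theorem exists_coord (hN : 0 < N) {w : Fin N → ℂ} (hw : nrm w = 1) :
    ∃ κ : Fin N, 1 ≤ √N * ‖w κ‖ := by
  by_contra hcon
  push Not at hcon
  have hN' : (0 : ℝ) < N := by exact_mod_cast hN
  have h1 : nsq w = 1 := by
    have h3 : nrm w = 1 := hw
    unfold nrm at h3
    rwa [Real.sqrt_eq_one] at h3
  have h2 : ∀ κ, ‖w κ‖ ^ 2 < 1 / N := by
    intro κ
    have h3 := hcon κ
    have h4 : (√N * ‖w κ‖) ^ 2 < 1 := by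
      have h5 : 0 ≤ √(N : ℝ) * ‖w κ‖ := by positivity
      nlinarith
    rw [mul_pow, Real.sq_sqrt hN'.le] at h4
    rw [lt_div_iff₀ hN', mul_comm]
    exact h4
  have h3 : nsq w < ∑ _κ : Fin N, (1 : ℝ) / N :=
    Finset.sum_lt_sum_of_nonempty ⟨⟨0, hN⟩, Finset.mem_univ _⟩ fun κ _ => h2 κ
  rw [Finset.sum_const, Finset.card_univ, Fintype.card_fin, nsmul_eq_mul,
    mul_one_div_cancel hN'.ne', h1] at h3
  exact lt_irrefl _ h3

theorem pow_sum_le {s A : ℕ} (hA : A ≠ 0) (x : Fin s → ℝ) (hx : ∀ i, 0 ≤ x i) (M : ℝ)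
    (hM : 0 ≤ M) (h : ∀ i, x i ^ A ≤ M) : (∑ i, x i) ^ A ≤ (s + 1 : ℝ) ^ A * M := by
  by_cases hs0 : s = 0
  · subst hs0
    rw [Finset.sum_of_isEmpty, zero_pow hA]
    positivity
  · have : Nonempty (Fin s) := ⟨⟨0, Nat.pos_of_ne_zero hs0⟩⟩
    obtain ⟨i, hi⟩ := Finite.exists_max x
    have h1 : ∑ i, x i ≤ (s + 1) * x i := by
      calc ∑ i, x i ≤ ∑ _i : Fin s, x i := Finset.sum_le_sum fun j _ => hi j
        _ = s * x i := by
            rw [Finset.sum_const, Finset.card_univ, Fintype.card_fin, nsmul_eq_mul]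
        _ ≤ _ := by nlinarith [hx i]
    calc (∑ i, x i) ^ A ≤ ((s + 1) * x i) ^ A :=
          pow_le_pow_left₀ (Finset.sum_nonneg fun i _ => hx i) h1 _
      _ = (s + 1) ^ A * x i ^ A := mul_pow _ _ _
      _ ≤ (s + 1) ^ A * M := mul_le_mul_of_nonneg_left (h i) (by positivity)

/-- one equation on the sphere -/
theorem one_eq {A : ℕ} {r w x B b X : ℝ} (hw : 1 ≤ r * w) (hr : 0 ≤ r) (hx : 0 ≤ x)
    (hX : 0 ≤ X) (hb : b ≤ B) (h : w ^ A * x ^ A ≤ b * X) : x ^ A ≤ r ^ A * (B * X) := by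
  have h5 : 1 ≤ (r * w) ^ A := one_le_pow₀ hw
  calc x ^ A = 1 * x ^ A := (one_mul _).symm
    _ ≤ (r * w) ^ A * x ^ A := mul_le_mul_of_nonneg_right h5 (by positivity)
    _ = r ^ A * (w ^ A * x ^ A) := by rw [mul_pow]; ring
    _ ≤ r ^ A * (B * X) := by
        refine mul_le_mul_of_nonneg_left (h.trans ?_) (by positivity)
        exact mul_le_mul_of_nonneg_right hb hX

theorem sum_const_bound (t : ℕ) (f : ℕ → ℝ) (l : ℕ)
    (h : ∀ i ∈ Finset.range (t + 1), f i ≤ f l) :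
    ∑ i ∈ Finset.range (t + 1), f i ≤ (t + 1) * f l := by
  calc ∑ i ∈ Finset.range (t + 1), f i ≤ ∑ _i ∈ Finset.range (t + 1), f l :=
        Finset.sum_le_sum h
    _ = _ := by
        rw [Finset.sum_const, Finset.card_range, nsmul_eq_mul]
        push_cast
        ring

end basics

theorem pf_PDS (hPCH : T_PCH) (hD12 : T_D12) : T_PDS := by
  classical
  intro N d m F G hN hd hF hm hG hG0
  have hd1 : 1 ≤ d := by omega
  have hIt : ∀ l, IsH (d ^ l) (iter F l) := fun l => (hD12 N d F hd1 hF 0 l).1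
  have hdl : ∀ l, 1 ≤ d ^ l := fun l => Nat.one_le_pow _ _ (by omega)
  have hI0 : ∀ l, ev (iter F l) 0 = 0 := by
    intro l
    have h := ev_hom (iter F l) (hIt l).hom 0 0
    rw [smul_zero] at h
    rw [h, zero_pow (by have := hdl l; omega), zero_smul]
  have hF0 : ev F 0 = 0 := by
    have h := hI0 1
    rwa [iter_succ, iter_zero] at h
  have hFn : ∀ z, z ≠ 0 → ev F z ≠ 0 := fun z hz h => hz (hF.nd z h)
  have hIn : ∀ l z, z ≠ 0 → ev (iter F l) z ≠ 0 := fun l z hz h => hz ((hIt l).nd z h)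
  choose n a e C hC ha hne hiff hex using fun l =>
    hPCH N (d ^ l) m (iter F l) G hN (hdl l) hm (hIt l) hG hG0
  -- the zero set
  set Z : Set (Fin N → ℂ) := {z | z ≠ 0 ∧ ∀ l j, MvPolynomial.eval z (a l j) = 0} with hZ
  have hZG : ∀ z, z ∈ Z ↔ z ≠ 0 ∧ ∀ l x, ev (iter F l) x = z → MvPolynomial.eval x G = 0 := by
    intro z
    constructor
    · rintro ⟨h1, h2⟩
      exact ⟨h1, fun l => (hiff l z h1).1 (h2 l)⟩
    · rintro ⟨h1, h2⟩
      exact ⟨h1, fun l => (hiff l z h1).2 (h2 l)⟩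
  -- finitely many equations
  let Sg : ℕ → Finset (MvPolynomial (Fin N) ℂ) := fun t =>
    (Finset.range (t + 1)).biUnion fun l => Finset.univ.image (a l)
  have hSg : ∀ t p, p ∈ Sg t ↔ ∃ l ≤ t, ∃ j, a l j = p := by
    intro t p
    simp only [Sg, Finset.mem_biUnion, Finset.mem_range, Finset.mem_image, Finset.mem_univ,
      true_and]
    constructor
    · rintro ⟨l, hl, j, hj⟩; exact ⟨l, by omega, j, hj⟩
    · rintro ⟨l, hl, j, hj⟩; exact ⟨l, by omega, j, hj⟩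
  obtain ⟨t, ht⟩ : ∃ t, ∀ l, t ≤ l → Ideal.span (Sg t : Set (MvPolynomial (Fin N) ℂ)) =
      Ideal.span (Sg l : Set (MvPolynomial (Fin N) ℂ)) := by
    have hmono : Monotone fun l => Ideal.span (Sg l : Set (MvPolynomial (Fin N) ℂ)) := by
      intro l l' hll
      refine Ideal.span_mono ?_
      intro p hp
      rw [Finset.mem_coe, hSg] at hp ⊢
      obtain ⟨i, hi, j, hj⟩ := hp
      exact ⟨i, by omega, j, hj⟩
    exact monotone_stabilizes_iff_noetherian.mpr inferInstance ⟨_, hmono⟩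
  have hspan0 : ∀ (T : Set (MvPolynomial (Fin N) ℂ)) (z : Fin N → ℂ),
      (∀ p ∈ T, MvPolynomial.eval z p = 0) → ∀ p ∈ Ideal.span T, MvPolynomial.eval z p = 0 := by
    intro T z h p hp
    have h1 : Ideal.span T ≤ RingHom.ker (MvPolynomial.eval z) :=
      Ideal.span_le.mpr fun q hq => (RingHom.mem_ker).mpr (h q hq)
    exact (RingHom.mem_ker).mp (h1 hp)
  have hZt : ∀ z, z ≠ 0 → (∀ l ≤ t, ∀ j, MvPolynomial.eval z (a l j) = 0) → z ∈ Z := by
    intro z hz h
    refine ⟨hz, fun l j => ?_⟩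
    have h1 : a l j ∈ Ideal.span (Sg (max t l) : Set (MvPolynomial (Fin N) ℂ)) :=
      Ideal.subset_span (by
        rw [Finset.mem_coe, hSg]
        exact ⟨l, le_max_right _ _, j, rfl⟩)
    rw [← ht (max t l) (le_max_left _ _)] at h1
    refine hspan0 _ z ?_ _ h1
    intro p hp
    rw [Finset.mem_coe, hSg] at hp
    obtain ⟨i, hi, j', rfl⟩ := hp
    exact h i hi j'
  -- backward invariance
  have hback : ∀ x, x ≠ 0 → ev F x ∈ Z → x ∈ Z := by
    intro x hx h
    rw [hZG] at h ⊢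
    refine ⟨hx, fun l y hy => h.2 (l + 1) y ?_⟩
    rw [iter_succ, hy]
  -- forward invariance
  let Zn : ℕ → Set (Fin N → ℂ) := fun i => {z | z ≠ 0 ∧ ev (iter F i) z ∈ Z}
  have hZnm : ∀ i, Zn (i + 1) ⊆ Zn i := by
    rintro i z ⟨h1, h2⟩
    refine ⟨h1, ?_⟩
    rw [iter_succ] at h2
    exact hback _ (hIn i z h1) h2
  obtain ⟨n0, hn0⟩ : ∃ n0, MvPolynomial.vanishingIdeal ℂ (Zn n0) =
      MvPolynomial.vanishingIdeal ℂ (Zn (n0 + 1)) := by
    have hanti : Antitone Zn := antitone_nat_of_succ_le hZnm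
    have hmono : Monotone fun i => MvPolynomial.vanishingIdeal ℂ (Zn i) :=
      fun i i' hii => MvPolynomial.vanishingIdeal_anti_mono (hanti hii)
    obtain ⟨n0, h⟩ := monotone_stabilizes_iff_noetherian.mpr
      (inferInstance : IsNoetherian (MvPolynomial (Fin N) ℂ) (MvPolynomial (Fin N) ℂ))
      ⟨_, hmono⟩
    exact ⟨n0, h (n0 + 1) (Nat.le_succ _)⟩
  have hfwd : ∀ z, z ∈ Z → ev F z ∈ Z := by
    intro z hz
    obtain ⟨x, hx, -⟩ := hex n0 z hz.1
    have hx0 : x ≠ 0 := by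
      rintro rfl
      exact hz.1 (by rw [← hx, hI0])
    have hxn : x ∈ Zn n0 := ⟨hx0, by rw [hx]; exact hz⟩
    have hxv : ∀ l j, MvPolynomial.eval (ev (iter F (n0 + 1)) x) (a l j) = 0 := by
      intro l j
      have h1 : MvPolynomial.bind₁ (iter F (n0 + 1)) (a l j) ∈
          MvPolynomial.vanishingIdeal ℂ (Zn (n0 + 1)) := by
        intro y hy
        show MvPolynomial.eval y _ = 0
        rw [ev_bind]
        exact hy.2.2 l j
      rw [← hn0] at h1
      have h2 : MvPolynomial.eval x (MvPolynomial.bind₁ (iter F (n0 + 1)) (a l j)) = 0 :=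
        h1 x hxn
      rwa [ev_bind] at h2
    rw [iter_succ, hx] at hxv
    exact ⟨hFn z hz.1, hxv⟩
  -- the equations
  let S : Set (MvPolynomial (Fin N) ℂ) :=
    {p | (∃ i, p.IsHomogeneous i) ∧ ∀ z ∈ Z, MvPolynomial.eval z p = 0}
  obtain ⟨T, hTS, hspan⟩ : ∃ T : Finset (MvPolynomial (Fin N) ℂ), ↑T ⊆ S ∧
      Ideal.span S = Ideal.span (T : Set (MvPolynomial (Fin N) ℂ)) :=
    (Submodule.fg_span_iff_fg_span_finset_subset S).mp
      ((inferInstance : IsNoetherian (MvPolynomial (Fin N) ℂ)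
        (MvPolynomial (Fin N) ℂ)).noetherian _)
  let s : ℕ := T.card
  let h : Fin s → MvPolynomial (Fin N) ℂ := fun i => (T.equivFin.symm i).1
  have hhS : ∀ i, h i ∈ S := fun i => hTS (T.equivFin.symm i).2
  choose e' he' using fun i => (hhS i).1
  have hhT : ∀ p ∈ T, ∃ i, h i = p := fun p hp => ⟨T.equivFin ⟨p, hp⟩, by simp [h]⟩
  have hmem0 : ∀ w : Fin N → ℂ, (∀ i, MvPolynomial.eval w (h i) = 0) → ∀ p ∈ S,
      MvPolynomial.eval w p = 0 := by
    intro w hw p hp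
    have h1 : p ∈ Ideal.span (T : Set (MvPolynomial (Fin N) ℂ)) := by
      rw [← hspan]; exact Ideal.subset_span hp
    refine hspan0 _ w ?_ p h1
    intro q hq
    obtain ⟨i, rfl⟩ := hhT q hq
    exact hw i
  have haS : ∀ l j, a l j ∈ S := fun l j => ⟨⟨_, ha l j⟩, fun z hz => hz.2 l j⟩
  have hZh : ∀ w, w ≠ 0 → ((∀ i, MvPolynomial.eval w (h i) = 0) ↔ w ∈ Z) := by
    intro w hw
    constructor
    · intro h1
      exact ⟨hw, fun l j => hmem0 w h1 _ (haS l j)⟩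
    · intro h1 i
      exact (hhS i).2 w h1
  have hGS : G ∈ S := by
    refine ⟨⟨m, hG⟩, fun z hz => ?_⟩
    exact ((hZG z).1 hz).2 0 z (iter_zero F z)
  have hsum : ∀ x : Fin N → ℂ, ∑ q ∈ T, ‖MvPolynomial.eval x q‖ =
      ∑ i, ‖MvPolynomial.eval x (h i)‖ := by
    intro x
    rw [← Finset.sum_coe_sort T, ← T.equivFin.symm.sum_comp]
  -- lower bound for `F` on the sphere
  have hlow : ∃ c : ℝ, 0 < c ∧ c ≤ 1 ∧ ∀ x : Fin N → ℂ, nrm x = 1 → c ≤ nrm (ev F x) := by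
    by_cases hemp : ∃ x : Fin N → ℂ, nrm x = 1
    · obtain ⟨x0, hx0⟩ := hemp
      have hcont : ContinuousOn (fun x : Fin N → ℂ => nrm (ev F x)) {z | nrm z = 1} :=
        (nrm_cont.comp (ev_smooth F).continuous).continuousOn
      obtain ⟨y, hy, hmin⟩ := (sph_cpt (N := N)).exists_isMinOn ⟨x0, hx0⟩ hcont
      have hy0 : 0 < nrm (ev F y) := nrm_pos (hFn y (ne_of_nrm hy))
      refine ⟨min 1 (nrm (ev F y)), lt_min one_pos hy0, min_le_left _ _, fun x hx => ?_⟩
      exact (min_le_right _ _).trans (hmin hx)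
    · refine ⟨1, one_pos, le_rfl, fun x hx => (hemp ⟨x, hx⟩).elim⟩
  obtain ⟨c, hc0, hc1, hcF⟩ := hlow
  -- growth
  have hgrow : ∃ B : ℝ, 0 ≤ B ∧ ∀ x : Fin N → ℂ, nrm x = 1 →
      phi h e' (ev F x) ≤ B * phi h e' x := by
    have h1 : ∀ i, ∃ B : ℝ, 0 ≤ B ∧ ∀ x : Fin N → ℂ, nrm x = 1 →
        ‖MvPolynomial.eval (ev F x) (h i)‖ ≤ B * ∑ i, ‖MvPolynomial.eval x (h i)‖ := by
      intro i
      have h2 : MvPolynomial.bind₁ F (h i) ∈ S := by
        refine ⟨⟨e' i * d, ?_⟩, fun z hz => ?_⟩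
        · have h4 := (he' i).aeval F hF.hom
          rw [mul_comm] at h4
          exact h4
        · rw [ev_bind]
          exact (hhS i).2 _ (hfwd z hz)
      have h3 : MvPolynomial.bind₁ F (h i) ∈
          Ideal.span (T : Set (MvPolynomial (Fin N) ℂ)) := by
        rw [← hspan]; exact Ideal.subset_span h2
      obtain ⟨B, hB, h4⟩ := span_bound T _ h3
      refine ⟨B, hB, fun x hx => ?_⟩
      have h5 := h4 x hx
      rwa [ev_bind, hsum] at h5
    choose B hB hB2 using h1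
    refine ⟨∑ i, B i / c ^ e' i, Finset.sum_nonneg fun i _ => div_nonneg (hB i)
      (pow_nonneg hc0.le _), fun x hx => ?_⟩
    have hph : phi h e' x = ∑ i, ‖MvPolynomial.eval x (h i)‖ :=
      Finset.sum_congr rfl fun i _ => nv_unit _ _ hx
    rw [hph]
    show ∑ i, nv (h i) (e' i) (ev F x) ≤ _
    rw [Finset.sum_mul]
    refine Finset.sum_le_sum fun i _ => ?_
    have hcp : 0 < c ^ e' i := pow_pos hc0 _
    have h2 : c ^ e' i ≤ nrm (ev F x) ^ e' i := pow_le_pow_left₀ hc0.le (hcF x hx) _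
    calc nv (h i) (e' i) (ev F x) ≤ ‖MvPolynomial.eval (ev F x) (h i)‖ / c ^ e' i :=
          div_le_div_of_nonneg_left (norm_nonneg _) hcp h2
      _ ≤ (B i * ∑ i, ‖MvPolynomial.eval x (h i)‖) / c ^ e' i :=
          div_le_div_of_nonneg_right (hB2 i x hx) hcp.le
      _ = B i / c ^ e' i * ∑ i, ‖MvPolynomial.eval x (h i)‖ := by ring
  obtain ⟨B1, hB1, hgr⟩ := hgrow
  -- the exponents
  have hNull : ∀ (κ : Fin N) (i : Fin s), ∃ A : ℕ,
      (MvPolynomial.X κ * h i) ^ A ∈ Ideal.span (Sg t : Set (MvPolynomial (Fin N) ℂ)) := by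
    intro κ i
    have h1 : MvPolynomial.X κ * h i ∈ MvPolynomial.vanishingIdeal ℂ
        (MvPolynomial.zeroLocus ℂ (Ideal.span (Sg t : Set (MvPolynomial (Fin N) ℂ)))) := by
      intro x hx
      show MvPolynomial.eval x (MvPolynomial.X κ * h i) = 0
      rw [map_mul, MvPolynomial.eval_X]
      by_cases hx0 : x = 0
      · rw [hx0]; simp
      · have h2 : x ∈ Z := by
          refine hZt x hx0 fun l hl j => ?_
          exact hx (a l j) (Ideal.subset_span (by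
            rw [Finset.mem_coe, hSg]
            exact ⟨l, hl, j, rfl⟩))
        rw [(hhS i).2 x h2, mul_zero]
    rw [MvPolynomial.vanishingIdeal_zeroLocus_eq_radical] at h1
    exact h1
  choose A hA using hNull
  obtain ⟨A0, hA0⟩ : ∃ A0 : ℕ, A0 = ∑ κ, ∑ i, A κ i + 1 := ⟨_, rfl⟩
  have hA2 : ∀ κ i, (MvPolynomial.X κ * h i) ^ A0 ∈
      Ideal.span (Sg t : Set (MvPolynomial (Fin N) ℂ)) := by
    intro κ i
    have h1 : A κ i ≤ A0 := by
      have h2 : A κ i ≤ ∑ i, A κ i :=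
        Finset.single_le_sum (f := fun i => A κ i) (fun _ _ => Nat.zero_le _)
          (Finset.mem_univ i)
      have h3 : ∑ i, A κ i ≤ ∑ κ, ∑ i, A κ i :=
        Finset.single_le_sum (f := fun κ => ∑ i, A κ i) (fun _ _ => Nat.zero_le _)
          (Finset.mem_univ κ)
      omega
    exact Ideal.pow_mem_of_pow_mem _ (hA κ i) h1
  choose B2 hB2 hB3 using fun κ i => span_bound (Sg t) _ (hA2 κ i)
  -- on the sphere
  have hsph : ∃ B : ℝ, 0 ≤ B ∧ ∀ w : Fin N → ℂ, nrm w = 1 →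
      phi h e' w ^ A0 ≤ B * ∑ q ∈ Sg t, ‖MvPolynomial.eval w q‖ := by
    have hB20 : 0 ≤ ∑ κ, ∑ i, B2 κ i :=
      Finset.sum_nonneg fun κ _ => Finset.sum_nonneg fun i _ => hB2 κ i
    refine ⟨(s + 1 : ℝ) ^ A0 * ((√N) ^ A0 * ∑ κ, ∑ i, B2 κ i), by positivity,
      fun w hw => ?_⟩
    have hph : phi h e' w = ∑ i, ‖MvPolynomial.eval w (h i)‖ :=
      Finset.sum_congr rfl fun i _ => nv_unit _ _ hw
    rw [hph]
    obtain ⟨X, hX⟩ : ∃ X : ℝ, X = ∑ q ∈ Sg t, ‖MvPolynomial.eval w q‖ := ⟨_, rfl⟩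
    rw [← hX]
    have hX0 : 0 ≤ X := by rw [hX]; exact Finset.sum_nonneg fun _ _ => norm_nonneg _
    obtain ⟨κ, hκ⟩ := exists_coord hN hw
    have hone : ∀ i, ‖MvPolynomial.eval w (h i)‖ ^ A0 ≤
        (√N) ^ A0 * ((∑ κ, ∑ i, B2 κ i) * X) := by
      intro i
      have h1 := hB3 κ i w hw
      rw [← hX, map_pow, map_mul, MvPolynomial.eval_X, norm_pow, norm_mul, mul_pow] at h1
      have h3 : B2 κ i ≤ ∑ i, B2 κ i :=
        Finset.single_le_sum (f := fun i => B2 κ i) (fun i _ => hB2 κ i)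
          (Finset.mem_univ i)
      have h4 : ∑ i, B2 κ i ≤ ∑ κ, ∑ i, B2 κ i :=
        Finset.single_le_sum (f := fun κ => ∑ i, B2 κ i)
          (fun κ _ => Finset.sum_nonneg fun i _ => hB2 κ i) (Finset.mem_univ κ)
      exact one_eq hκ (Real.sqrt_nonneg _) (norm_nonneg _) hX0 (h3.trans h4) h1
    have hA0n : A0 ≠ 0 := by rw [hA0]; exact Nat.succ_ne_zero _
    have hres := pow_sum_le hA0n (fun i => ‖MvPolynomial.eval w (h i)‖)
      (fun i => norm_nonneg _) _ (mul_nonneg (pow_nonneg (Real.sqrt_nonneg _) _)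
        (mul_nonneg hB20 hX0)) hone
    refine hres.trans (le_of_eq ?_)
    rw [← mul_assoc, ← mul_assoc, ← mul_assoc]
  obtain ⟨B3, hB30, hB31⟩ := hsph
  -- the sum over the finite set of equations
  have hT0 : ∀ w : Fin N → ℂ, nrm w = 1 → ∑ q ∈ Sg t, ‖MvPolynomial.eval w q‖ ≤
      ∑ l ∈ Finset.range (t + 1), ∑ j, nv (a l j) (e l j) w := by
    intro w hw
    refine (sum_biUnion_le' _ _ _ fun q => norm_nonneg _).trans ?_
    refine Finset.sum_le_sum fun l _ => ?_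
    refine (sum_image_le' _ _ _ fun q => norm_nonneg _).trans ?_
    refine Finset.sum_le_sum fun j _ => ?_
    rw [nv_unit _ _ hw]
  have hlast : ∃ B : ℝ, 0 ≤ B ∧ ∀ z : Fin N → ℂ, z ≠ 0 → ∃ l ≤ t, ∃ x, ev (iter F l) x = z ∧
      phi h e' z ^ A0 ≤ B * nv G m x := by
    obtain ⟨Ct, hCt⟩ : ∃ Ct : ℝ, Ct = ∑ l ∈ Finset.range (t + 1), n l * C l := ⟨_, rfl⟩
    have hCt0 : 0 ≤ Ct := by
      rw [hCt]
      exact Finset.sum_nonneg fun l _ => mul_nonneg (Nat.cast_nonneg _) (hC l).le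
    refine ⟨B3 * ((t + 1) * Ct), by positivity, fun z hz => ?_⟩
    obtain ⟨lam, w, hlam, hw, rfl⟩ := exists_unit hz
    let f : ℕ → ℝ := fun l => ∑ j, nv (a l j) (e l j) w
    obtain ⟨l, hl, hmax⟩ := Finset.exists_max_image (Finset.range (t + 1)) f
      ⟨0, Finset.mem_range.mpr (Nat.succ_pos t)⟩
    obtain ⟨x, hx1, hx2⟩ := hex l (lam • w) hz
    refine ⟨l, by have := Finset.mem_range.mp hl; omega, x, hx1, ?_⟩
    rw [phi_smul he' hlam]
    have h1 : ∑ l ∈ Finset.range (t + 1), ∑ j, nv (a l j) (e l j) w ≤ (t + 1) * f l :=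
      sum_const_bound t f l hmax
    have h2 : f l ≤ Ct * nv G m x := by
      have h3 : f l ≤ n l * C l * nv G m x := by
        calc f l ≤ ∑ _j : Fin (n l), C l * nv G m x := by
              refine Finset.sum_le_sum fun j _ => ?_
              have h4 := hx2 j
              rwa [nv_smul (ha l j) hlam] at h4
          _ = _ := by
              rw [Finset.sum_const, Finset.card_univ, Fintype.card_fin, nsmul_eq_mul,
                mul_assoc]
      refine h3.trans (mul_le_mul_of_nonneg_right ?_ (nv_nonneg _ _ _))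
      rw [hCt]
      exact Finset.single_le_sum (f := fun l => (n l : ℝ) * C l)
        (fun l _ => mul_nonneg (Nat.cast_nonneg _) (hC l).le) hl
    calc phi h e' w ^ A0 ≤ B3 * ∑ q ∈ Sg t, ‖MvPolynomial.eval w q‖ := hB31 w hw
      _ ≤ B3 * ((t + 1) * (Ct * nv G m x)) := by
          refine mul_le_mul_of_nonneg_left ?_ hB30
          refine (hT0 w hw).trans (h1.trans ?_)
          exact mul_le_mul_of_nonneg_left h2 (by positivity)
      _ = _ := by rw [← mul_assoc, ← mul_assoc, ← mul_assoc]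
  obtain ⟨B4, hB4, hfin⟩ := hlast
  refine ⟨t, s, A0, h, e', 1 + B1 + B4, ⟨he', ?_, ?_, ?_, ?_⟩, ?_⟩
  · by_contra hcon
    push Not at hcon
    have h1 : G ∈ Ideal.span (T : Set (MvPolynomial (Fin N) ℂ)) := by
      rw [← hspan]; exact Ideal.subset_span hGS
    have h2 : (T : Set (MvPolynomial (Fin N) ℂ)) ⊆ {0} := by
      intro p hp
      obtain ⟨i, rfl⟩ := hhT p hp
      exact hcon i
    have h3 := Ideal.span_mono h2 h1
    rw [Ideal.span_singleton_eq_bot.mpr rfl] at h3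
    exact hG0 ((Submodule.mem_bot _).mp h3)
  · intro z hz
    rw [hZh _ (hFn z hz), hZh z hz]
    exact ⟨hback z hz, hfwd z⟩
  · exact (le_add_of_nonneg_right hB1).trans (le_add_of_nonneg_right hB4)
  · intro x hx
    obtain ⟨lam, w, hlam, hw, rfl⟩ := exists_unit hx
    rw [ev_hom F hF.hom, phi_smul he' (pow_ne_zero _ hlam), phi_smul he' hlam]
    have hp : 0 ≤ phi h e' w := Finset.sum_nonneg fun i _ => nv_nonneg _ _ _
    refine (hgr w hw).trans (mul_le_mul_of_nonneg_right ?_ hp)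
    exact (le_add_of_nonneg_left zero_le_one).trans (le_add_of_nonneg_right hB4)
  · intro z hz
    obtain ⟨l, hl, x, hx, h1⟩ := hfin z hz
    refine ⟨l, hl, x, hx, h1.trans (mul_le_mul_of_nonneg_right ?_ (nv_nonneg _ _ _))⟩
    exact le_add_of_nonneg_left (add_nonneg zero_le_one hB1)

end

end Pool.Agent.H77.EQ
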