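import Pool.Agent.H92.EQ.TP
import Pool.Agent.H17.EQD.G4

/-!
# PLC: local counting of preimages
-/

set_option autoImplicit false

namespace Pool.Agent.H77.EQ

open scoped BigOperators ComplexConjugate ContDiff ComplexOrder
open MeasureTheory Filter Topology
open Pool.Agent.H92.EQ Pool.Agent.H17.EQD

noncomputable section

/-- the real differential of a polynomial map -/
def fdJ {N : ℕ} (Φ : Fin N → MvPolynomial (Fin N) ℂ) (z : Fin N → ℂ) :
    (Fin N → ℂ) →L[ℝ] (Fin N → ℂ) :=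
  LinearMap.toContinuousLinearMap ((Matrix.toLin' (jac Φ z)).restrictScalars ℝ)

theorem fdJ_apply {N : ℕ} (Φ : Fin N → MvPolynomial (Fin N) ℂ) (z v : Fin N → ℂ) (i : Fin N) :
    fdJ Φ z v i = ∑ a, jac Φ z i a * v a := by
  show (Matrix.toLin' (jac Φ z)) v i = _
  rw [Matrix.toLin'_apply]
  rfl

theorem fdJ_det {N : ℕ} (Φ : Fin N → MvPolynomial (Fin N) ℂ) (z : Fin N → ℂ) :
    (fdJ Φ z).det = ‖(jac Φ z).det‖ ^ 2 := by
  show LinearMap.det ((Matrix.toLin' (jac Φ z)).restrictScalars ℝ) = _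
  rw [LinearMap.det_restrictScalars, LinearMap.det_toLin', Algebra.norm_complex_apply,
    Complex.normSq_eq_norm_sq]

theorem ev_fd (hW0 : T_W0) (hW2 : T_W2) {N : ℕ} (Φ : Fin N → MvPolynomial (Fin N) ℂ)
    (z : Fin N → ℂ) : HasFDerivAt (ev Φ) (fdJ Φ z) z := by
  rw [hasFDerivAt_pi']
  intro i
  have hd : DifferentiableAt ℝ (fun w : Fin N → ℂ => MvPolynomial.eval w (Φ i)) z := by
    exact ((hW2 (Fin N) i (Φ i) z).2.2.differentiable (by simp)) z
  refine hd.hasFDerivAt.congr_fderiv ?_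
  ext v
  rw [hW0 (Fin N) _ z v]
  show _ = fdJ Φ z v i
  rw [fdJ_apply]
  refine Finset.sum_congr rfl fun a _ => ?_
  obtain ⟨h1, h2, -⟩ := hW2 (Fin N) a (Φ i) z
  rw [h1, h2, zero_mul, add_zero]
  rfl

/-- the area inequality with a density -/
theorem area (hW0 : T_W0) (hW2 : T_W2) {N : ℕ} (Φ : Fin N → MvPolynomial (Fin N) ℂ)
    (O : Set (Fin N → ℂ)) (hO : MeasurableSet O) (f : (Fin N → ℂ) → ENNReal)
    (hf : Measurable f) :
    ∫⁻ z in ev Φ '' O, f z ≤
      ∫⁻ x in O, ENNReal.ofReal (‖(jac Φ x).det‖ ^ 2) * f (ev Φ x) := by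
  have hevm : Measurable (ev Φ) := (ev_cont Φ).measurable
  have hdm : Measurable (fun z => ENNReal.ofReal (‖(jac Φ z).det‖ ^ 2)) :=
    ENNReal.measurable_ofReal.comp ((jac_cont Φ).norm.pow 2).measurable
  have hle : (volume : Measure (Fin N → ℂ)).restrict (ev Φ '' O) ≤
      Measure.map (ev Φ) (((volume : Measure (Fin N → ℂ)).restrict O).withDensity
        (fun z => ENNReal.ofReal (‖(jac Φ z).det‖ ^ 2))) := by
    rw [Measure.le_iff]
    intro B hB
    have hpre : MeasurableSet (ev Φ ⁻¹' B) := hevm hB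
    rw [Measure.restrict_apply hB, Measure.map_apply hevm hB, withDensity_apply _ hpre,
      Measure.restrict_restrict hpre]
    have hsub : B ∩ ev Φ '' O ⊆ ev Φ '' (ev Φ ⁻¹' B ∩ O) := by
      rintro _ ⟨hB', x, hx, rfl⟩
      exact ⟨x, ⟨hB', hx⟩, rfl⟩
    refine (measure_mono hsub).trans ?_
    refine (addHaar_image_le_lintegral_abs_det_fderiv volume (hpre.inter hO)
      (fun x _ => (ev_fd hW0 hW2 Φ x).hasFDerivWithinAt)).trans (le_of_eq ?_)
    refine lintegral_congr fun x => ?_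
    rw [fdJ_det, abs_of_nonneg (by positivity)]
  calc ∫⁻ z in ev Φ '' O, f z ≤ ∫⁻ z, f z ∂(Measure.map (ev Φ)
        (((volume : Measure (Fin N → ℂ)).restrict O).withDensity
        (fun z => ENNReal.ofReal (‖(jac Φ z).det‖ ^ 2)))) := lintegral_mono' hle le_rfl
    _ = ∫⁻ x in O, ENNReal.ofReal (‖(jac Φ x).det‖ ^ 2) * f (ev Φ x) := by
        rw [lintegral_map hf hevm]
        exact lintegral_withDensity_eq_lintegral_mul _ hdm (hf.comp hevm)

theorem pf_PLC (hW0 : T_W0) (hW2 : T_W2) (hS4 : T_S4) (hS5 : T_S5) (hA9 : T_A9)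
    (hD10 : T_D10) (hW4 : T_W4) (hL2 : T_L2) (hD5 : T_D5) (hD11 : T_D11) (hL1 : T_L1)
    (hP3 : T_P3) : T_PLC := by
  intro k D Φ σ g₀ hD hΦ hσ hg₀ hg₀0
  have hN : k + 0 + 1 = k + 1 := by omega
  have hN0 : 0 < k + 1 := by omega
  have hD0 : (0 : ℝ) < D := by exact_mod_cast hD
  have : Nonempty (Fin (k + 1)) := ⟨⟨0, hN0⟩⟩
  set u : Fin 0 → (Fin (k + 1) → ℂ) → ℝ := fun _ => ell with hu'
  have hu : ∀ j : Fin 0, LH ((fun _ => 0 : Fin 0 → ℝ) j) (u j) := fun j => j.elim0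
  have huP : ∀ j : Fin 0, Pot (u j) := fun j => j.elim0
  obtain ⟨hQc, hQh, -⟩ := hS5 (k + 1) k 0 σ u _ hN hσ hu
  obtain ⟨-, hevh, hjach, -⟩ := hD11 (k + 1) D D Φ Φ hD hD hΦ hΦ
  have hQ0 := (hP3 (k + 1) k 0 σ u hN hσ huP).1
  have hQm : Measurable (fun z => Q σ u z) := measurable_of_continuousOn_compl_singleton 0 hQc
  have hgm0 : Measurable g₀ :=
    measurable_of_continuousOn_compl_singleton 0 hg₀.smooth.continuousOn
  have hellm : Measurable (ell : (Fin (k + 1) → ℂ) → ℝ) := by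
    unfold ell
    exact (Real.measurable_log.comp nsq_cont.measurable).const_mul _
  have hevm : Measurable (ev Φ) := (ev_cont Φ).measurable
  have hdetm : Measurable (fun z => ‖(jac Φ z).det‖ ^ 2) :=
    ((jac_cont Φ).norm.pow 2).measurable
  have hev0 : ∀ z, z ≠ 0 → ev Φ z ≠ 0 := fun z hz h => hz (hΦ.nd z h)
  have hevz : ev Φ 0 = 0 := by
    have h := hevh 0 0
    rw [smul_zero] at h
    rw [h, zero_pow (by omega), zero_smul]
  set ψ : (Fin (k + 1) → ℂ) → ℝ := fun z => g₀ z * (‖(jac Φ z).det‖ ^ 2 * Q σ u (ev Φ z))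
    with hψ
  set g : (Fin (k + 1) → ℂ) → ℝ := fun z => ell (ev Φ z) - D * ell z with hg
  set θ : ℝ → ℝ := Set.indicator (Set.Ico 0 1) (fun _ => 1) with hθ
  have hψm : Measurable ψ := hgm0.mul (hdetm.mul (hQm.comp hevm))
  have hgm : Measurable g := (hellm.comp hevm).sub (hellm.const_mul _)
  have hθm : Measurable θ := measurable_const.indicator measurableSet_Ico
  have hθi : Integrable θ := by
    rw [hθ, integrable_indicator_iff measurableSet_Ico]
    exact integrableOn_const (by simp)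
  have hθv : ∫ t, θ t = 1 := by
    rw [hθ, integral_indicator measurableSet_Ico]
    simp
  have hθ0 : ∀ t, 0 ≤ θ t := fun t => Set.indicator_nonneg (fun _ _ => zero_le_one) t
  have hψi : IntegrableOn ψ {z : Fin (k + 1) → ℂ | 0 ≤ ell z ∧ ell z < 1} := by
    refine IntegrableOn.mono_set ?_ shell_sub
    refine IntegrableOn.union ?_ ?_
    · refine ContinuousOn.integrableOn_compact cpt_shell ?_
      have hz0 : ∀ z ∈ {z : Fin (k + 1) → ℂ | 1 ≤ nsq z ∧ nsq z ≤ Real.exp 2}, z ≠ 0 := by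
        rintro z hz rfl
        have h := hz.1
        unfold nsq at h
        simp at h
        linarith
      refine (hg₀.smooth.continuousOn.mono fun z hz => hz0 z hz).mul ?_
      refine ((jac_cont Φ).norm.pow 2).continuousOn.mul ?_
      refine hQc.comp (ev_cont Φ).continuousOn ?_
      intro z hz
      exact hev0 z (hz0 z hz)
    · have : (volume : Measure (Fin (k + 1) → ℂ)) {0} = 0 := measure_singleton 0
      exact IntegrableOn.of_measure_zero this
  have hψh : ∀ (r : ℝ) (z : Fin (k + 1) → ℂ), 0 < r → z ≠ 0 →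
      ψ ((r : ℂ) • z) = (r ^ (2 * (k + 1)))⁻¹ * ψ z := by
    intro r z hr hz
    have hrc : ((r : ℂ) ^ D) ≠ 0 := pow_ne_zero _ (by exact_mod_cast hr.ne')
    have e1 := hevh (r : ℂ) z
    have e2 := hg₀.hom (r : ℂ) z (by exact_mod_cast hr.ne') hz
    have e3 := hQh ((r : ℂ) ^ D) (ev Φ z) hrc (hev0 z hz)
    have e4 := hjach (r : ℂ) z
    show g₀ ((r : ℂ) • z) * (‖(jac Φ ((r : ℂ) • z)).det‖ ^ 2 *
      Q σ u (ev Φ ((r : ℂ) • z))) = _
    rw [e1, e2, e3, e4, Matrix.det_smul, Fintype.card_fin, norm_mul, norm_pow, norm_pow,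
      norm_pow, Complex.norm_of_nonneg hr.le]
    show _ = (r ^ (2 * (k + 1)))⁻¹ * (g₀ z * (‖(jac Φ z).det‖ ^ 2 * Q σ u (ev Φ z)))
    have e5 : ((r ^ (D - 1)) ^ (k + 1)) ^ 2 * ((r ^ D) ^ (2 * (k + 1)))⁻¹ =
        (r ^ (2 * (k + 1)))⁻¹ := by
      obtain ⟨j, rfl⟩ : ∃ j, D = j + 1 := ⟨D - 1, by omega⟩
      have hr0 : r ≠ 0 := hr.ne'
      have e6 : ((r ^ j) ^ (k + 1)) ^ 2 = (r ^ j) ^ (2 * (k + 1)) := by
        rw [← pow_mul, mul_comm (k + 1) 2]
      have e7 : (r ^ (j + 1)) ^ (2 * (k + 1)) =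
          (r ^ j) ^ (2 * (k + 1)) * r ^ (2 * (k + 1)) := by
        rw [pow_succ, mul_pow]
      rw [Nat.add_sub_cancel, e6, e7, mul_inv, ← mul_assoc,
        mul_inv_cancel₀ (pow_ne_zero _ (pow_ne_zero _ hr0)), one_mul]
    calc g₀ z * (((r ^ (D - 1)) ^ (k + 1) * ‖(jac Φ z).det‖) ^ 2 *
          (((r ^ D) ^ (2 * (k + 1)))⁻¹ * Q σ u (ev Φ z)))
        = (((r ^ (D - 1)) ^ (k + 1)) ^ 2 * ((r ^ D) ^ (2 * (k + 1)))⁻¹) *
          (g₀ z * (‖(jac Φ z).det‖ ^ 2 * Q σ u (ev Φ z))) := by ring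
      _ = _ := by rw [e5]
  have hgh : ∀ (r : ℝ) (z : Fin (k + 1) → ℂ), 0 < r → z ≠ 0 →
      g ((r : ℂ) • z) = g z := by
    intro r z hr hz
    show ell (ev Φ ((r : ℂ) • z)) - D * ell ((r : ℂ) • z) = ell (ev Φ z) - D * ell z
    have e : (r : ℂ) ^ D = ((r ^ D : ℝ) : ℂ) := by push_cast; rfl
    rw [hevh, e, ell_smul (pow_pos hr D) (hev0 z hz), ell_smul hr hz, Real.log_pow]
    ring
  obtain ⟨hInt, hI⟩ := hS4 (k + 1) ψ g D θ hN0 hD0 hψm hgm hψi hψh hgh hθm hθi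
  rw [hθv, mul_one] at hI
  have hph : ∀ z, (D : ℝ) * ell z + g z = ell (ev Φ z) := by
    intro z
    show (D : ℝ) * ell z + (ell (ev Φ z) - D * ell z) = ell (ev Φ z)
    ring
  simp only [hph] at hInt hI
  have h0 : ∀ᵐ z : Fin (k + 1) → ℂ, z ≠ 0 := by
    have : (volume : Measure (Fin (k + 1) → ℂ)) {0} = 0 := measure_singleton 0
    exact compl_mem_ae_iff.2 this
  have hC4 : pair g₀ (pull Φ σ) (fun _ : Fin 0 => ell) = ((D : ℝ) ^ 2)⁻¹ * Iint ψ := by
    unfold pair Iint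
    rw [← integral_const_mul]
    refine integral_congr_ae ?_
    filter_upwards [ae_restrict_of_ae h0] with z hz
    have e1 := Q_pull hD5 hD11 hL1 hL2 hS5 hA9 hD10 hW4 Φ σ u (fun _ => 0) hN hD hΦ hσ hu z hz
    have e2 : (fun j : Fin 0 => fun z : Fin (k + 1) → ℂ => u j (ev Φ z)) =
        (fun _ : Fin 0 => ell) := funext fun j => j.elim0
    rw [e2] at e1
    rw [e1]
    show g₀ z * (((D : ℝ) ^ 2)⁻¹ * (‖(jac Φ z).det‖ ^ 2 * Q σ u (ev Φ z))) =
      ((D : ℝ) ^ 2)⁻¹ * (g₀ z * (‖(jac Φ z).det‖ ^ 2 * Q σ u (ev Φ z)))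
    ring
  have hR : (D : ℝ) * pair g₀ (pull Φ σ) (fun _ : Fin 0 => ell) =
      ∫ z, ψ z * θ (ell (ev Φ z)) := by
    rw [hC4, hI]
    field_simp
  rw [hR]
  have hψ0 : ∀ z, z ≠ 0 → 0 ≤ ψ z := fun z hz =>
    mul_nonneg (hg₀0 z hz) (mul_nonneg (by positivity) (hQ0 _ (hev0 z hz)))
  have hR0 : 0 ≤ᵐ[volume] fun z => ψ z * θ (ell (ev Φ z)) := by
    filter_upwards [h0] with z hz
    exact mul_nonneg (hψ0 z hz) (hθ0 _)
  -- the left side
  set E : Set (Fin (k + 1) → ℂ) := {z | ∃ x, ev Φ x = z ∧ 1 ≤ g₀ x} with hE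
  set sh : Set (Fin (k + 1) → ℂ) := {z | 0 ≤ ell z ∧ ell z < 1} with hsh
  have hshm : MeasurableSet sh := hellm measurableSet_Ico
  set f : (Fin (k + 1) → ℂ) → ℝ := fun z => Set.indicator E (fun _ => 1) z * Q σ u z with hf
  show ∫ z in sh, f z ≤ _
  by_cases hfm : AEStronglyMeasurable f (volume.restrict sh)
  swap
  · rw [integral_non_aestronglyMeasurable hfm]
    exact integral_nonneg_of_ae hR0
  have hf0 : 0 ≤ᵐ[volume.restrict sh] f := by
    filter_upwards [ae_restrict_of_ae h0] with z hz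
    exact mul_nonneg (Set.indicator_nonneg (fun _ _ => zero_le_one) z) (hQ0 z hz)
  rw [integral_eq_lintegral_of_nonneg_ae hf0 hfm,
    integral_eq_lintegral_of_nonneg_ae hR0 hInt.aestronglyMeasurable]
  refine ENNReal.toReal_mono ?_ ?_
  · have h1 := hInt.lintegral_lt_top
    exact h1.ne
  set O : Set (Fin (k + 1) → ℂ) := {x | x ≠ 0 ∧ 1 ≤ g₀ x} with hO
  have hOm : MeasurableSet O :=
    (measurableSet_singleton (0 : Fin (k + 1) → ℂ)).compl.inter
      (measurableSet_le measurable_const hgm0)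
  set Fq : (Fin (k + 1) → ℂ) → ENNReal := fun z => ENNReal.ofReal (Q σ u z * θ (ell z))
    with hFq
  have hFqm : Measurable Fq :=
    ENNReal.measurable_ofReal.comp (hQm.mul (hθm.comp hellm))
  calc ∫⁻ z in sh, ENNReal.ofReal (f z) ≤ ∫⁻ z, Set.indicator (ev Φ '' O) Fq z := by
        rw [← lintegral_indicator hshm]
        refine lintegral_mono_ae ?_
        filter_upwards [h0] with z hz
        by_cases hzs : z ∈ sh
        · rw [Set.indicator_of_mem hzs]
          by_cases hzE : z ∈ E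
          · have hzO : z ∈ ev Φ '' O := by
              obtain ⟨x, hx1, hx2⟩ := hzE
              refine ⟨x, ⟨?_, hx2⟩, hx1⟩
              rintro rfl
              exact hz (by rw [← hx1, hevz])
            rw [Set.indicator_of_mem hzO]
            show ENNReal.ofReal (Set.indicator E (fun _ => (1 : ℝ)) z * Q σ u z) ≤
              ENNReal.ofReal (Q σ u z * θ (ell z))
            rw [Set.indicator_of_mem hzE, hθ,
              Set.indicator_of_mem (show ell z ∈ Set.Ico (0 : ℝ) 1 from hzs), one_mul, mul_one]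
          · show ENNReal.ofReal (Set.indicator E (fun _ => (1 : ℝ)) z * Q σ u z) ≤ _
            rw [Set.indicator_of_notMem hzE, zero_mul, ENNReal.ofReal_zero]
            exact bot_le
        · rw [Set.indicator_of_notMem hzs]
          exact bot_le
    _ ≤ ∫⁻ z in ev Φ '' O, Fq z := lintegral_indicator_le _ _
    _ ≤ ∫⁻ x in O, ENNReal.ofReal (‖(jac Φ x).det‖ ^ 2) * Fq (ev Φ x) :=
        area hW0 hW2 Φ O hOm Fq hFqm
    _ ≤ ∫⁻ x in O, ENNReal.ofReal (ψ x * θ (ell (ev Φ x))) := by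
        refine setLIntegral_mono_ae' hOm ?_
        refine Filter.Eventually.of_forall fun x hx => ?_
        rw [hFq, ← ENNReal.ofReal_mul (by positivity)]
        refine ENNReal.ofReal_le_ofReal ?_
        show ‖(jac Φ x).det‖ ^ 2 * (Q σ u (ev Φ x) * θ (ell (ev Φ x))) ≤
          g₀ x * (‖(jac Φ x).det‖ ^ 2 * Q σ u (ev Φ x)) * θ (ell (ev Φ x))
        have h1 : 0 ≤ ‖(jac Φ x).det‖ ^ 2 * (Q σ u (ev Φ x) * θ (ell (ev Φ x))) :=
          mul_nonneg (by positivity) (mul_nonneg (hQ0 _ (hev0 x hx.1)) (hθ0 _))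
        calc _ = 1 * (‖(jac Φ x).det‖ ^ 2 * (Q σ u (ev Φ x) * θ (ell (ev Φ x)))) :=
              (one_mul _).symm
          _ ≤ g₀ x * (‖(jac Φ x).det‖ ^ 2 * (Q σ u (ev Φ x) * θ (ell (ev Φ x)))) :=
              mul_le_mul_of_nonneg_right hx.2 h1
          _ = _ := by ring
    _ ≤ ∫⁻ x, ENNReal.ofReal (ψ x * θ (ell (ev Φ x))) := setLIntegral_le_lintegral _ _

end

end Pool.Agent.H77.EQ
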